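import Pool.Agent.Q47.Setup.Main

/-!
MP_7297ca_co, Q1: the ratio of perimeter and area of a shifted `(k, n)`-setup exceeds the ratio of
a single regular `n`-gon if and only if `k > 1` and `k ≡ 1` modulo `n`.

The definitions are in `Pool/Agent/Q47/Setup`. The plane is `ℂ`; `dir t` is the unit vector with
the angle `t`; `circ n = 1 / (2 sin (π / n))` is the circumradius of the regular `n`-gon of side
one; `ngon n c t` is the convex hull of its vertices `c + circ n * dir (t + 2 π j / n)`, `j < n`;
`perim U` is the one-dimensional Hausdorff measure of the boundary of `U`, `areaOf U` the Lebesgue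
measure of `U`. `BasicSetup k n a`: the vertices of the `k` polygons `P i = ngon n 0 (a i)` together
form a regular `k n`-gon; the marked vertex `A i` of `P i` is the one with the direction `a i`;
`Marked k n a`: the marked vertices form a regular `k`-gon. `shifted k n a ε` is the union of the
polygons `P i + ε (O A i)`. `RatioExceeds k n`: for every basic `(k, n)`-setup with an admissible
marking there is `ε₀ > 0` such that `perim / areaOf` exceeds `4 tan (π / n)` for all `ε` between
`0` and `ε₀`.
-/

set_option autoImplicit false

namespace Pool.Agent.Results.MP_7297ca_co.ShiftedSetups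

open Q47.Setup

/-- Let `k ≥ 1` and `n ≥ 3` be coprime. The ratio of a shifted `(k, n)`-setup exceeds the ratio of a
single polygon if and only if `k > 1` and `k ≡ 1` modulo `n`. More precisely this equivalence holds
for every single setup and marking and all small `ε > 0`. -/
theorem result (k n : ℕ) (hk : 1 ≤ k) (hn : 3 ≤ n) (hco : Nat.Coprime k n) :
    (RatioExceeds k n ↔ 1 < k ∧ k ≡ 1 [MOD n]) ∧
    ∀ a : Fin k → ℝ, BasicSetup k n a → Marked k n a → ∃ ε₀ > 0, ∀ ε : ℝ, 0 < ε → ε < ε₀ →
      (4 * Real.tan (Real.pi / n) < perim (shifted k n a ε) / areaOf (shifted k n a ε) ↔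
        1 < k ∧ k ≡ 1 [MOD n]) :=
  ⟨main hk hn hco, fun _ _ ha => pointwise hk hn hco ha⟩

end Pool.Agent.Results.MP_7297ca_co.ShiftedSetups
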